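import Mathlib
import Pool.Agent.H2.NsD

set_option autoImplicit false
open Filter Topology Metric Complex MeasureTheory Real

namespace Pool.Agent.Results.MP_5011cf_an.NoLimit

/-- Neither `0` nor `exp (-iθ)` is attained as radial limit of `f'` on a set of positive measure,
for any univalent `f`; hence Q1 fails. -/
theorem result :
    (¬ ∀ m : ℝ → ℂ, AEMeasurable m (volume.restrict (Set.Ico 0 (2 * π))) →
      ∃ f : ℂ → ℂ, DifferentiableOn ℂ f (ball 0 1) ∧ Set.InjOn f (ball 0 1) ∧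
        ContinuousOn f (closedBall 0 1) ∧
        ∀ᵐ θ : ℝ ∂(volume.restrict (Set.Ico 0 (2 * π))),
          Tendsto (fun r : ℝ => deriv f (r * cexp (θ * I))) (𝓝[<] 1) (𝓝 (m θ))) ∧
    ∀ f : ℂ → ℂ, DifferentiableOn ℂ f (ball 0 1) → Set.InjOn f (ball 0 1) →
      ∀ᵐ θ : ℝ ∂(volume.restrict (Set.Ico 0 (2 * π))),
        ¬ Tendsto (fun r : ℝ => deriv f (r * cexp (θ * I))) (𝓝[<] 1) (𝓝 0) ∧
        ¬ Tendsto (fun r : ℝ => deriv f (r * cexp (θ * I))) (𝓝[<] 1) (𝓝 (cexp (-(θ * I)))) := by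
  have key : ∀ f : ℂ → ℂ, DifferentiableOn ℂ f (ball 0 1) → Set.InjOn f (ball 0 1) →
      ∀ᵐ θ : ℝ ∂(volume.restrict (Set.Ico 0 (2 * π))),
        ¬ Tendsto (fun r : ℝ => deriv f (r * cexp (θ * I))) (𝓝[<] 1) (𝓝 0) ∧
        ¬ Tendsto (fun r : ℝ => deriv f (r * cexp (θ * I))) (𝓝[<] 1) (𝓝 (cexp (-(θ * I)))) := by
    intro f hf hi
    have h1 := Pool.Agent.H2.NsD.main f hf hi 0 1 (by
      by_contra h
      push Not at h
      have h2 := isOpen_ball.is_const_of_deriv_eq_zero (convex_ball (0 : ℂ) 1).isPreconnected hf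
        (fun z hz => by simpa using h z (by simpa using hz))
        (show (0 : ℂ) ∈ ball 0 1 by simp) (show (1 / 2 : ℂ) ∈ ball 0 1 by simp; norm_num)
      have h3 := hi (show (0 : ℂ) ∈ ball 0 1 by simp)
        (show (1 / 2 : ℂ) ∈ ball 0 1 by simp; norm_num) h2
      norm_num at h3) (by simp)
    have h2 := Pool.Agent.H2.NsD.main f hf hi 1 0 ⟨0, by simp, by simp⟩ (by simp)
    filter_upwards [h1, h2] with θ h3 h4
    exact ⟨by simpa [circleMap_zero] using h3, by simpa [circleMap_zero, Complex.exp_neg] using h4⟩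
  refine ⟨fun h => ?_, key⟩
  obtain ⟨f, h1, h2, -, h3⟩ := h (fun θ => cexp (-(θ * I)))
    (Continuous.aemeasurable (by fun_prop))
  have hne : (ae (volume.restrict (Set.Ico (0 : ℝ) (2 * π)))).NeBot := by
    rw [ae_neBot, Ne, Measure.restrict_eq_zero]
    simp [pi_pos]
  obtain ⟨θ, h4, h5⟩ := ((key f h1 h2).and h3).exists
  exact h4.2 h5

end Pool.Agent.Results.MP_5011cf_an.NoLimit
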